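import Pool.Agent.Helper68.SDP.Spec

set_option autoImplicit false

namespace Pool.Agent.Helper37.SDP

open Finset Pool.Agent.Helper68.SDP

/-- the weights `w(a,b)` -/
noncomputable def w (t a b : ℕ) : ℝ :=
  (∏ i ∈ range a, ((2 * t + 1 / 2 : ℝ) - i)) * (∏ j ∈ range b, ((2 * t + 1 / 2 : ℝ) - j)) /
    ∏ i ∈ range (a + b), ((4 * t + 1 : ℝ) - i)

theorem den_pos (t n : ℕ) (h : n ≤ 4 * t + 1) :
    0 < ∏ i ∈ range n, ((4 * t + 1 : ℝ) - i) := by
  refine prod_pos fun i hi => ?_
  have h1 : i < 4 * t + 1 := lt_of_lt_of_le (mem_range.1 hi) h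
  have h2 : (i : ℝ) < 4 * t + 1 := by exact_mod_cast h1
  linarith

theorem w_rec (t a b : ℕ) (h : a + b < 4 * t + 1) : w t (a + 1) b + w t a (b + 1) = w t a b := by
  have hp := (den_pos t (a + b) h.le).ne'
  have hp1 : ((4 * t + 1 : ℝ) - ((a + b : ℕ) : ℝ)) ≠ 0 := by
    have h2 : ((a + b : ℕ) : ℝ) < 4 * t + 1 := by exact_mod_cast h
    linarith
  have e1 : a + 1 + b = (a + b) + 1 := by ring
  have e2 : a + (b + 1) = (a + b) + 1 := by ring
  simp only [w, e1, e2, prod_range_succ]
  rw [← add_div, div_eq_div_iff (mul_ne_zero hp hp1) hp]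
  push_cast
  ring

theorem w_zero (t : ℕ) : w t 0 0 = 1 := by simp [w]

theorem w_pos (t j : ℕ) (h : j ≤ t) : 0 < w t (2 * t - j) j := by
  unfold w
  refine div_pos (mul_pos ?_ ?_) (den_pos t _ (by omega))
  · refine prod_pos fun i hi => ?_
    have h1 : i ≤ 2 * t := by have := mem_range.1 hi; omega
    have h2 : (i : ℝ) ≤ 2 * t := by exact_mod_cast h1
    linarith
  · refine prod_pos fun i hi => ?_
    have h1 : i ≤ 2 * t := by have := mem_range.1 hi; omega
    have h2 : (i : ℝ) ≤ 2 * t := by exact_mod_cast h1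
    linarith

/-- expansion of the recursion along a finite set -/
theorem w_expand {α : Type} [DecidableEq α] (t : ℕ) (I : Finset α) : ∀ a b : ℕ,
    a + b + I.card ≤ 4 * t + 1 → ∑ C ∈ I.powerset, w t (a + I.card - C.card) (b + C.card) = w t a b := by
  induction I using Finset.induction_on with
  | empty => intro a b _; simp
  | insert i I hi ih =>
    intro a b h
    rw [card_insert_of_notMem hi] at h
    rw [sum_powerset_insert hi, ← sum_add_distrib]
    rw [← ih a b (by omega)]
    refine sum_congr rfl fun C hC => ?_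
    have hCI := mem_powerset.1 hC
    have hc := card_le_card hCI
    have hiC : i ∉ C := fun h => hi (hCI h)
    rw [card_insert_of_notMem hi, card_insert_of_notMem hiC]
    have h1 : a + (I.card + 1) - C.card = (a + I.card - C.card) + 1 := by omega
    have h2 : a + (I.card + 1) - (C.card + 1) = a + I.card - C.card := by omega
    have h3 : b + (C.card + 1) = (b + C.card) + 1 := by omega
    rw [h1, h2, h3]
    exact w_rec t _ _ (by omega)

/-- monomials -/
noncomputable def X {m : ℕ} (A : Finset (Fin m)) (z : Fin m → Bool) : ℝ :=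
  ∏ i ∈ A, (if z i = true then (1 : ℝ) else 0)

theorem X_eq {m : ℕ} (A : Finset (Fin m)) (z : Fin m → Bool) :
    X A z = if ∀ i ∈ A, z i = true then 1 else 0 := by
  unfold X
  split_ifs with h
  · exact prod_eq_one fun i hi => by rw [if_pos (h i hi)]
  · push Not at h
    obtain ⟨i, hi, hz⟩ := h
    exact prod_eq_zero hi (by simp [hz])

theorem X_mul {m : ℕ} (A B : Finset (Fin m)) (z : Fin m → Bool) :
    X A z * X B z = X (A ∪ B) z := by
  simp only [X_eq, mem_union]
  by_cases hA : ∀ i ∈ A, z i = true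
  · by_cases hB : ∀ i ∈ B, z i = true
    · rw [if_pos hA, if_pos hB, if_pos (fun i hi => hi.elim (hA i) (hB i)), mul_one]
    · rw [if_pos hA, if_neg hB, if_neg (fun h => hB fun i hi => h i (Or.inr hi)), mul_zero]
  · rw [if_neg hA, zero_mul, if_neg (fun h => hA fun i hi => h i (Or.inl hi))]

theorem wt_eq {m : ℕ} (z : Fin m → Bool) :
    (wt z : ℝ) = ∑ i, (if z i = true then (1 : ℝ) else 0) := by
  rw [wt, sum_boole]

theorem X_wt {m : ℕ} (A : Finset (Fin m)) (z : Fin m → Bool) :
    (wt z : ℝ) * X A z = A.card * X A z + ∑ i ∈ Aᶜ, X (insert i A) z := by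
  rw [wt_eq, sum_mul, ← sum_add_sum_compl A]
  congr 1
  · rw [← nsmul_eq_mul, ← sum_const]
    refine sum_congr rfl fun i hi => ?_
    by_cases h : z i = true
    · rw [if_pos h, one_mul]
    · have : X A z = 0 := by
        rw [X_eq, if_neg (fun h' => h (h' i hi))]
      rw [this, mul_zero]
  · refine sum_congr rfl fun i hi => ?_
    rw [X, X, prod_insert (mem_compl.1 hi)]

/-- zero sets -/
def zsEquiv (m : ℕ) : (Fin m → Bool) ≃ Finset (Fin m) where
  toFun z := univ.filter fun i => z i = false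
  invFun C i := decide (i ∉ C)
  left_inv z := by funext i; simp
  right_inv C := by ext i; simp

/-- the pseudo-density -/
noncomputable def D (t : ℕ) (z : Fin (4 * t + 1) → Bool) : ℝ :=
  w t (4 * t + 1 - (zsEquiv _ z).card) (zsEquiv _ z).card

theorem Et_X (t : ℕ) (A : Finset (Fin (4 * t + 1))) : ∑ z, D t z * X A z = w t A.card 0 := by
  have hA : A.card ≤ 4 * t + 1 := by simpa using card_le_univ A
  have hAc : (Aᶜ).card = 4 * t + 1 - A.card := by rw [card_compl, Fintype.card_fin]
  have h1 : ∑ z, D t z * X A z =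
      ∑ C : Finset (Fin (4 * t + 1)), if C ⊆ Aᶜ then w t (4 * t + 1 - C.card) C.card else 0 := by
    refine Fintype.sum_equiv (zsEquiv _) _ _ fun z => ?_
    rw [X_eq]
    have h : (∀ i ∈ A, z i = true) ↔ zsEquiv _ z ⊆ Aᶜ := by
      constructor
      · intro h i hi
        rw [mem_compl]
        intro hiA
        have h1 : z i = false := by simpa [zsEquiv] using hi
        rw [h i hiA] at h1
        exact absurd h1 (by simp)
      · intro h i hi
        by_contra hz
        have h1 : i ∈ zsEquiv _ z := by simpa [zsEquiv] using hz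
        exact (mem_compl.1 (h h1)) hi
    by_cases hz : ∀ i ∈ A, z i = true
    · rw [if_pos hz, if_pos (h.1 hz), mul_one]; rfl
    · rw [if_neg hz, if_neg (fun h' => hz (h.2 h')), mul_zero]
  rw [h1, ← sum_filter]
  have h2 : (univ.filter fun C : Finset (Fin (4 * t + 1)) => C ⊆ Aᶜ) = (Aᶜ).powerset := by
    ext C; simp
  rw [h2]
  have h3 := w_expand t (Aᶜ) A.card 0 (by omega)
  rw [← h3]
  refine sum_congr rfl fun C hC => ?_
  have h4 : A.card + (Aᶜ).card - C.card = 4 * t + 1 - C.card := by omega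
  rw [h4, zero_add]

theorem w_step (t a : ℕ) (h : a < 4 * t + 1) :
    ((4 * t + 1 : ℝ) - a) * w t (a + 1) 0 = ((2 * t + 1 / 2 : ℝ) - a) * w t a 0 := by
  have hp := (den_pos t a h.le).ne'
  have hp1 : ((4 * t + 1 : ℝ) - (a : ℝ)) ≠ 0 := by
    have h2 : (a : ℝ) < 4 * t + 1 := by exact_mod_cast h
    linarith
  simp only [w, add_zero, prod_range_succ, prod_range_zero, mul_one]
  field_simp

/-- (K1) -/
theorem K1 (t : ℕ) (A : Finset (Fin (4 * t + 1))) (hA : A.card < 4 * t + 1) :
    ∑ z, D t z * (((2 * t + 1 / 2 : ℝ) - wt z) * X A z) = 0 := by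
  have h1 : ∀ z : Fin (4 * t + 1) → Bool, D t z * (((2 * t + 1 / 2 : ℝ) - wt z) * X A z) =
      ((2 * t + 1 / 2 : ℝ) - A.card) * (D t z * X A z) -
        ∑ i ∈ Aᶜ, D t z * X (insert i A) z := by
    intro z
    rw [sub_mul, X_wt, ← mul_sum]
    ring
  rw [sum_congr rfl fun z _ => h1 z, sum_sub_distrib, ← mul_sum, Et_X, sum_comm]
  have h2 : ∀ i ∈ Aᶜ, ∑ z, D t z * X (insert i A) z = w t (A.card + 1) 0 := by
    intro i hi
    rw [Et_X, card_insert_of_notMem (mem_compl.1 hi)]
  rw [sum_congr rfl h2, sum_const, card_compl, Fintype.card_fin, nsmul_eq_mul,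
    Nat.cast_sub hA.le, ← w_step t _ hA]
  push_cast
  ring

/-- functions of degree at most `t`, in terms of monomials -/
def W (m t : ℕ) : Submodule ℝ ((Fin m → Bool) → ℝ) :=
  Submodule.span ℝ {q | ∃ A : Finset (Fin m), A.card ≤ t ∧ q = X A}

/-- homogeneous functions of degree `t` -/
def V (m t : ℕ) : Submodule ℝ ((Fin m → Bool) → ℝ) :=
  Submodule.span ℝ (Set.range fun A : {A : Finset (Fin m) // A.card = t} => X A.1)

theorem Deg_le_W (m t : ℕ) : Deg (Fin m) t ≤ W m t := by
  refine Submodule.span_le.2 ?_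
  rintro q ⟨A, hA, rfl⟩
  have h : (chi A : (Fin m → Bool) → ℝ) = ∑ B ∈ A.powerset, ((-2 : ℝ) ^ B.card) • X B := by
    funext z
    rw [Finset.sum_apply]
    have h1 : (chi A z : ℝ) = ∏ i ∈ A, ((-2) * (if z i = true then (1 : ℝ) else 0) + 1) := by
      refine prod_congr rfl fun i _ => ?_
      split_ifs <;> norm_num
    rw [h1, prod_add]
    refine sum_congr rfl fun B _ => ?_
    rw [prod_mul_distrib, prod_const, prod_const_one, mul_one]
    rfl
  rw [h]
  refine Submodule.sum_mem _ fun B hB => Submodule.smul_mem _ _ (Submodule.subset_span ?_)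
  exact ⟨B, (card_le_card (mem_powerset.1 hB)).trans hA, rfl⟩

/-- radical of the form `Et[p q]` on functions of degree at most `t` -/
def Rad (t : ℕ) : Submodule ℝ ((Fin (4 * t + 1) → Bool) → ℝ) where
  carrier := {r | r ∈ W (4 * t + 1) t ∧ ∀ u ∈ W (4 * t + 1) t, ∑ z, D t z * (r z * u z) = 0}
  add_mem' := by
    rintro a b ⟨ha, ha'⟩ ⟨hb, hb'⟩
    refine ⟨Submodule.add_mem _ ha hb, fun u hu => ?_⟩
    have h : ∑ z, D t z * ((a + b) z * u z) =
        ∑ z, D t z * (a z * u z) + ∑ z, D t z * (b z * u z) := by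
      rw [← sum_add_distrib]
      refine sum_congr rfl fun z _ => ?_
      simp only [Pi.add_apply]
      ring
    rw [h, ha' u hu, hb' u hu, add_zero]
  zero_mem' := ⟨Submodule.zero_mem _, fun u _ => by simp⟩
  smul_mem' := by
    rintro c a ⟨ha, ha'⟩
    refine ⟨Submodule.smul_mem _ _ ha, fun u hu => ?_⟩
    rw [← mul_zero c, ← ha' u hu, mul_sum]
    refine sum_congr rfl fun z _ => ?_
    simp only [Pi.smul_apply, smul_eq_mul]
    ring

/-- (K2) -/
theorem X_mem (t : ℕ) : ∀ (d : ℕ) (A : Finset (Fin (4 * t + 1))), A.card + d = t →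
    X A ∈ V (4 * t + 1) t ⊔ Rad t := by
  intro d
  induction d with
  | zero =>
    intro A hA
    exact Submodule.mem_sup_left (Submodule.subset_span ⟨⟨A, by omega⟩, rfl⟩)
  | succ d ih =>
    intro A hA
    have hs : ((2 * t + 1 / 2 : ℝ) - A.card) ≠ 0 := by
      have h1 : A.card ≤ t := by omega
      have h2 : (A.card : ℝ) ≤ t := by exact_mod_cast h1
      have h3 : (0 : ℝ) ≤ t := Nat.cast_nonneg t
      intro h; linarith
    have hfun : (X A : (Fin (4 * t + 1) → Bool) → ℝ) =
        ((2 * t + 1 / 2 : ℝ) - A.card)⁻¹ • ∑ i ∈ Aᶜ, X (insert i A) +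
        ((2 * t + 1 / 2 : ℝ) - A.card)⁻¹ • (fun z => ((2 * t + 1 / 2 : ℝ) - wt z) * X A z) := by
      funext z
      simp only [Pi.add_apply, Pi.smul_apply, Finset.sum_apply, smul_eq_mul]
      have := X_wt A z
      have h2 : ∑ i ∈ Aᶜ, X (insert i A) z = (wt z : ℝ) * X A z - A.card * X A z := by linarith
      rw [h2, ← mul_add]
      have h3 : (wt z : ℝ) * X A z - A.card * X A z + ((2 * t + 1 / 2 : ℝ) - wt z) * X A z =
          ((2 * t + 1 / 2 : ℝ) - A.card) * X A z := by ring
      rw [h3, inv_mul_cancel_left₀ hs]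
    rw [hfun]
    refine Submodule.add_mem _ (Submodule.smul_mem _ _ (Submodule.sum_mem _ fun i hi => ?_))
      (Submodule.smul_mem _ _ (Submodule.mem_sup_right ?_))
    · refine ih _ ?_
      rw [card_insert_of_notMem (mem_compl.1 hi)]
      omega
    · refine ⟨?_, fun u hu => ?_⟩
      · have h3 : (fun z => ((2 * t + 1 / 2 : ℝ) - wt z) * X A z) =
            ((2 * t + 1 / 2 : ℝ) - A.card) • (X A : (Fin (4 * t + 1) → Bool) → ℝ) -
              ∑ i ∈ Aᶜ, X (insert i A) := by
          funext z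
          simp only [Pi.sub_apply, Pi.smul_apply, Finset.sum_apply, smul_eq_mul]
          have := X_wt A z
          linarith
        rw [h3]
        refine Submodule.sub_mem _ (Submodule.smul_mem _ _ (Submodule.subset_span
          ⟨A, by omega, rfl⟩)) (Submodule.sum_mem _ fun i hi => Submodule.subset_span ⟨_, ?_, rfl⟩)
        rw [card_insert_of_notMem (mem_compl.1 hi)]
        omega
      · refine Submodule.span_induction (p := fun u _ =>
          ∑ z, D t z * ((((2 * t + 1 / 2 : ℝ) - wt z) * X A z) * u z) = 0) ?_ ?_ ?_ ?_ hu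
        · rintro _ ⟨B, hB, rfl⟩
          rw [← K1 t (A ∪ B) (by have := card_union_le A B; omega)]
          refine sum_congr rfl fun z _ => ?_
          rw [← X_mul]
          ring
        · simp
        · intro a b _ _ ha hb
          refine Eq.trans ?_ ((congrArg₂ (· + ·) ha hb).trans (add_zero 0))
          rw [← sum_add_distrib]
          refine sum_congr rfl fun z _ => ?_
          simp only [Pi.add_apply]
          ring
        · intro c a _ ha
          rw [← mul_zero c, ← ha, mul_sum]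
          refine sum_congr rfl fun z _ => ?_
          simp only [Pi.smul_apply, smul_eq_mul]
          ring

theorem W_le (t : ℕ) : W (4 * t + 1) t ≤ V (4 * t + 1) t ⊔ Rad t := by
  refine Submodule.span_le.2 ?_
  rintro q ⟨A, hA, rfl⟩
  exact X_mem t (t - A.card) A (by omega)

theorem V_le_W (m t : ℕ) : V m t ≤ W m t := by
  refine Submodule.span_le.2 ?_
  rintro q ⟨A, rfl⟩
  exact Submodule.subset_span ⟨A.1, A.2.le, rfl⟩

/-- (K3) -/
theorem Et_sq_nonneg (t : ℕ) (p : (Fin (4 * t + 1) → Bool) → ℝ) (hp : p ∈ V (4 * t + 1) t) :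
    0 ≤ ∑ z, D t z * p z ^ 2 := by
  obtain ⟨c, hc⟩ := (Submodule.mem_span_range_iff_exists_fun ℝ).1 hp
  have h1 : ∀ z, p z = ∑ A : {A : Finset (Fin (4 * t + 1)) // A.card = t}, c A * X A.1 z := by
    intro z
    rw [← hc, Finset.sum_apply]
    rfl
  have h2 : ∑ z, D t z * p z ^ 2 =
      ∑ A : {A : Finset (Fin (4 * t + 1)) // A.card = t},
        ∑ B : {A : Finset (Fin (4 * t + 1)) // A.card = t},
          c A * c B * w t (A.1 ∪ B.1).card 0 := by
    have h3 : ∀ z, D t z * p z ^ 2 = ∑ A : {A : Finset (Fin (4 * t + 1)) // A.card = t},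
        ∑ B : {A : Finset (Fin (4 * t + 1)) // A.card = t},
          c A * c B * (D t z * X (A.1 ∪ B.1) z) := by
      intro z
      rw [h1, sq, sum_mul_sum, mul_sum]
      refine sum_congr rfl fun A _ => ?_
      rw [mul_sum]
      refine sum_congr rfl fun B _ => ?_
      rw [← X_mul]
      ring
    rw [sum_congr rfl fun z _ => h3 z, sum_comm]
    refine sum_congr rfl fun A _ => ?_
    rw [sum_comm]
    refine sum_congr rfl fun B _ => ?_
    rw [← mul_sum, Et_X]
  have h4 : ∀ A B : {A : Finset (Fin (4 * t + 1)) // A.card = t},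
      w t (A.1 ∪ B.1).card 0 = ∑ C : Finset (Fin (4 * t + 1)),
        (if C ⊆ A.1 then 1 else 0) * (if C ⊆ B.1 then 1 else 0) * w t (2 * t - C.card) C.card := by
    intro A B
    have h5 := card_union_add_card_inter A.1 B.1
    rw [A.2, B.2] at h5
    have h6 := w_expand t (A.1 ∩ B.1) (A.1 ∪ B.1).card 0 (by omega)
    rw [← h6]
    have h7 : (A.1 ∩ B.1).powerset =
        univ.filter fun C : Finset (Fin (4 * t + 1)) => C ⊆ A.1 ∧ C ⊆ B.1 := by
      ext C
      simp only [mem_powerset, subset_inter_iff, mem_filter, mem_univ, true_and]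
    rw [h7, sum_filter]
    refine sum_congr rfl fun C _ => ?_
    by_cases hA : C ⊆ A.1
    · by_cases hB : C ⊆ B.1
      · rw [if_pos ⟨hA, hB⟩, if_pos hA, if_pos hB, mul_one, one_mul, zero_add]
        congr 1
        omega
      · rw [if_neg (fun h => hB h.2), if_neg hB]; ring
    · rw [if_neg (fun h => hA h.1), if_neg hA]; ring
  have h8 : ∑ z, D t z * p z ^ 2 = ∑ C : Finset (Fin (4 * t + 1)), w t (2 * t - C.card) C.card *
      (∑ A : {A : Finset (Fin (4 * t + 1)) // A.card = t}, c A * (if C ⊆ A.1 then 1 else 0)) ^ 2 := by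
    rw [h2]
    have h9 : ∀ C : Finset (Fin (4 * t + 1)), w t (2 * t - C.card) C.card *
      (∑ A : {A : Finset (Fin (4 * t + 1)) // A.card = t},
        c A * (if C ⊆ A.1 then 1 else 0)) ^ 2 =
      ∑ A : {A : Finset (Fin (4 * t + 1)) // A.card = t},
        ∑ B : {A : Finset (Fin (4 * t + 1)) // A.card = t}, c A * c B *
        ((if C ⊆ A.1 then 1 else 0) * (if C ⊆ B.1 then 1 else 0) *
          w t (2 * t - C.card) C.card) := by
      intro C
      rw [sq, sum_mul_sum, mul_sum]
      refine sum_congr rfl fun A _ => ?_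
      rw [mul_sum]
      refine sum_congr rfl fun B _ => ?_
      ring
    rw [sum_congr rfl fun C _ => h9 C]
    symm
    rw [sum_comm]
    refine sum_congr rfl fun A _ => ?_
    rw [sum_comm]
    refine sum_congr rfl fun B _ => ?_
    rw [← mul_sum, h4]
  rw [h8]
  refine sum_nonneg fun C _ => ?_
  by_cases hC : C.card ≤ t
  · exact mul_nonneg (w_pos t _ hC).le (sq_nonneg _)
  · have : ∀ A : {A : Finset (Fin (4 * t + 1)) // A.card = t},
        c A * (if C ⊆ A.1 then (1 : ℝ) else 0) = 0 := by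
      intro A
      rw [if_neg, mul_zero]
      intro h
      have := card_le_card h
      rw [A.2] at this
      exact hC this
    rw [sum_congr rfl fun A _ => this A, sum_const_zero]
    simp

theorem pseudo (t : ℕ) : Pseudo (4 * t + 1) t (D t) := by
  intro q hq
  obtain ⟨p, hp, r, ⟨hrW, hr⟩, rfl⟩ := Submodule.mem_sup.1 (W_le t (Deg_le_W _ _ hq))
  have h1 := hr p (V_le_W _ _ hp)
  have h2 := hr r hrW
  have h3 : ∑ z, D t z * (p + r) z ^ 2 = ∑ z, D t z * p z ^ 2 +
      (2 * ∑ z, D t z * (r z * p z) + ∑ z, D t z * (r z * r z)) := by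
    rw [mul_sum, ← sum_add_distrib, ← sum_add_distrib]
    refine sum_congr rfl fun z _ => ?_
    simp only [Pi.add_apply]
    ring
  rw [h3, h1, h2]
  have := Et_sq_nonneg t p hp
  linarith

theorem kn : specKN := by
  intro t ht
  refine ⟨D t, pseudo t, ?_⟩
  have h0 : ∑ z, D t z = 1 := by
    have := Et_X t ∅
    simpa [X, w_zero] using this
  have hK0 : ∑ z, D t z * ((2 * t + 1 / 2 : ℝ) - wt z) = 0 := by
    have := K1 t ∅ (by simp)
    simpa [X] using this
  have hK1 : ∑ z, D t z * (((2 * t + 1 / 2 : ℝ) - wt z) * wt z) = 0 := by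
    have h1 : ∀ z : Fin (4 * t + 1) → Bool, D t z * (((2 * t + 1 / 2 : ℝ) - wt z) * wt z) =
        ∑ i, D t z * (((2 * t + 1 / 2 : ℝ) - wt z) * X {i} z) := by
      intro z
      nth_rewrite 2 [wt_eq]
      rw [← mul_sum, ← mul_sum]
      simp [X]
    rw [sum_congr rfl fun z _ => h1 z, sum_comm]
    refine sum_eq_zero fun i _ => K1 t {i} ?_
    rw [card_singleton]
    omega
  have h2 : ∑ z, D t z * (((wt z : ℝ) - 2 * t) * ((wt z : ℝ) - 2 * t - 1)) = - (1 / 4) := by
    have h3 : ∀ z : Fin (4 * t + 1) → Bool,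
        D t z * (((wt z : ℝ) - 2 * t) * ((wt z : ℝ) - 2 * t - 1)) =
        (2 * t + 1 / 2 : ℝ) * (D t z * ((2 * t + 1 / 2 : ℝ) - wt z)) -
          D t z * (((2 * t + 1 / 2 : ℝ) - wt z) * wt z) - (1 / 4) * D t z := by
      intro z
      ring
    rw [sum_congr rfl fun z _ => h3 z, sum_sub_distrib, sum_sub_distrib, ← mul_sum, ← mul_sum,
      hK0, hK1, h0]
    ring
  rw [h2]
  norm_num

end Pool.Agent.Helper37.SDP
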